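import Pool.Agent.P.MP_26a8c3_nt.QH.Gam

/-!
The measure on the quotient and the unfolding identity.
-/

namespace Pool.Agent.P.MP_26a8c3_nt.QH

open MeasureTheory Set Complex QO
open scoped MatrixGroups ComplexConjugate ENNReal

/-- the strip over the parallelogram -/
def St : Set (ℂ × ℝ) := FF ×ˢ Ioi 0

/-- periodic under `9 O` -/
def Pd {α : Type*} (Ψ : ℂ × ℝ → α) : Prop :=
  ∀ (t : O) (w : ℂ × ℝ), 0 < w.2 → Ψ (w.1 + toC (9 * t), w.2) = Ψ w

/-- invariant under the group -/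
def Inv {α : Type*} (Φ : ℂ × ℝ → α) : Prop :=
  ∀ (g : G0) (w : ℂ × ℝ), 0 < w.2 → Φ (ac g w) = Φ w

/-- the sum of the basic weight over the rows -/
noncomputable def Th0 (w : ℂ × ℝ) : ℝ≥0∞ := ∑' r : Row, ENNReal.ofReal (Real.exp (-(hr r w)⁻¹))

/-- the weight whose translates sum to one -/
noncomputable def wt : ℂ × ℝ → ℝ≥0∞ :=
  St.indicator fun w => ENNReal.ofReal (Real.exp (-w.2⁻¹)) / Th0 w

/-- the measure on the quotient -/
noncomputable def muG : Measure (ℂ × ℝ) := dm.withDensity wt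

theorem measurableSet_St : MeasurableSet St := measurableSet_FF.prod measurableSet_Ioi

theorem Inv.pd {α : Type*} {Φ : ℂ × ℝ → α} (h : Inv Φ) : Pd Φ := fun t w hw => by
  rw [← ac_Tm _ hw]
  exact h ⟨Tm (9 * t), Tm_mem.2 (dvd_mul_right 9 t)⟩ w hw

/-- the constant of the uniform bound -/
noncomputable def CE : ℝ := 64 * ∑' n : ℕ, ((n : ℝ) + 1) ^ 2 * Real.exp (-n)

theorem summable_CE : Summable fun n : ℕ => ((n : ℝ) + 1) ^ 2 * Real.exp (-n) := by
  have := ((summable_nat_add_iff 1).2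
    (Real.summable_pow_mul_exp_neg_nat_mul 2 one_pos)).mul_left (Real.exp 1)
  refine this.congr fun n => ?_
  rw [mul_left_comm, ← Real.exp_add]
  push_cast
  congr 2
  ring

theorem CE_nonneg : 0 ≤ CE := mul_nonneg (by norm_num) (tsum_nonneg fun n => by positivity)

theorem sum_exp_le {w : ℂ × ℝ} (hw : 0 < w.2) {y : ℝ} (hy : 0 < y) (s : Finset Row) :
    ∑ r ∈ s, Real.exp (-(y * hr r w)⁻¹) ≤ CE * (1 + y ^ 2) := by
  classical
  let n : Row → ℕ := fun r => ⌊(y * hr r w)⁻¹⌋₊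
  have hp : ∀ r, 0 < y * hr r w := fun r => mul_pos hy (hr_pos r hw)
  calc ∑ r ∈ s, Real.exp (-(y * hr r w)⁻¹) ≤ ∑ r ∈ s, Real.exp (-(n r : ℝ)) :=
        Finset.sum_le_sum fun r _ =>
          Real.exp_le_exp.2 (neg_le_neg (Nat.floor_le (inv_pos.2 (hp r)).le))
    _ = ∑ k ∈ s.image n, (s.filter fun r => n r = k).card • Real.exp (-(k : ℝ)) :=
        Finset.sum_comp (fun k : ℕ => Real.exp (-(k : ℝ))) n
    _ ≤ ∑ k ∈ s.image n, 64 * (1 + y ^ 2) * (((k : ℝ) + 1) ^ 2 * Real.exp (-k)) := by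
        refine Finset.sum_le_sum fun k _ => ?_
        have hk : 0 < y * ((k : ℝ) + 1) := by positivity
        obtain ⟨a, b⟩ := pack hw (inv_pos.2 hk)
        have c : ((s.filter fun r => n r = k : Finset Row) : Set Row) ⊆
            {r | (y * ((k : ℝ) + 1))⁻¹ ≤ hr r w} := fun r h => by
          have h1 : n r = k := (Finset.mem_filter.1 h).2
          have h2 := Nat.lt_floor_add_one (y * hr r w)⁻¹
          rw [show ⌊(y * hr r w)⁻¹⌋₊ = k from h1, inv_lt_iff_one_lt_mul₀ (hp r)] at h2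
          rw [mem_ofPred_eq, inv_le_iff_one_le_mul₀ hk]
          nlinarith
        have d := ncard_le_ncard c a
        rw [ncard_coe_finset] at d
        have e : ((s.filter fun r => n r = k).card : ℝ) ≤ _ := (Nat.cast_le.2 d).trans b
        rw [inv_inv] at e
        rw [nsmul_eq_mul, ← mul_assoc]
        refine mul_le_mul_of_nonneg_right (e.trans ?_) (Real.exp_pos _).le
        have : (1 : ℝ) ≤ ((k : ℝ) + 1) ^ 2 := one_le_pow₀ (by simp)
        nlinarith
    _ ≤ CE * (1 + y ^ 2) := by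
        rw [← Finset.mul_sum, CE, mul_right_comm]
        exact mul_le_mul_of_nonneg_right (mul_le_mul_of_nonneg_left
          (summable_CE.sum_le_tsum _ fun n _ => by positivity) (by norm_num)) (by positivity)

theorem summable_exp {w : ℂ × ℝ} (hw : 0 < w.2) {y : ℝ} (hy : 0 < y) :
    Summable fun r : Row => Real.exp (-(y * hr r w)⁻¹) :=
  summable_of_sum_le (fun _ => (Real.exp_pos _).le) (sum_exp_le hw hy)

/-- the uniform bound -/
theorem tsum_exp_le {w : ℂ × ℝ} (hw : 0 < w.2) {y : ℝ} (hy : 0 < y) :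
    ∑' r : Row, Real.exp (-(y * hr r w)⁻¹) ≤ CE * (1 + y ^ 2) :=
  (summable_exp hw hy).tsum_le_of_sum_le (sum_exp_le hw hy)

theorem Th0_ne_top {w : ℂ × ℝ} (hw : 0 < w.2) : Th0 w ≠ ⊤ := by
  have := summable_exp hw one_pos
  simp only [one_mul] at this
  rw [Th0, ← ENNReal.ofReal_tsum_of_nonneg (fun _ => (Real.exp_pos _).le) this]
  exact ENNReal.ofReal_ne_top

theorem Th0_ne_zero (w : ℂ × ℝ) : Th0 w ≠ 0 :=
  ((ENNReal.ofReal_pos.2 (Real.exp_pos _)).trans_le (ENNReal.le_tsum r0)).ne'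

theorem inv_Th0 : Inv Th0 := fun g w hw => by
  simp only [Th0, hr_ac g _ hw]
  exact (rmul g).tsum_eq fun r => ENNReal.ofReal (Real.exp (-(hr r w)⁻¹))

theorem measurable_Th0 : Measurable Th0 :=
  Measurable.tsum fun r => (measurable_hr r).inv.neg.exp.ennreal_ofReal

theorem measurable_wt : Measurable wt :=
  (measurable_snd.inv.neg.exp.ennreal_ofReal.div measurable_Th0).indicator measurableSet_St

theorem wt_le_one (w : ℂ × ℝ) : wt w ≤ 1 := by
  refine indicator_apply_le' (fun _ => ENNReal.div_le_of_le_mul ?_) fun _ => zero_le_one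
  rw [one_mul, ← hr_r0 w]
  exact ENNReal.le_tsum r0

theorem muG_le : muG ≤ dm := by
  have := withDensity_mono (μ := dm) (Filter.Eventually.of_forall wt_le_one)
  rwa [show (fun _ => 1) = (1 : ℂ × ℝ → ℝ≥0∞) from rfl, withDensity_one] at this

theorem muG_ac : muG ≪ dm := withDensity_absolutelyContinuous _ _

theorem ae_up_muG : ∀ᵐ w ∂muG, 0 < w.2 := muG_ac.ae_le ae_up

instance : SigmaFinite muG := Measure.sigmaFinite_of_le dm muG_le

theorem qmp_ac (g : SL(2, O)) : Measure.QuasiMeasurePreserving (ac g) muG dm :=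
  (mp_ac g).quasiMeasurePreserving.mono_left muG_ac

variable {sec : Row → G0}

theorem fold (hs : ∀ r, row (sec r) = r) {Ψ : ℂ × ℝ → ℝ≥0∞} (hΨ : Pd Ψ) {w : ℂ × ℝ}
    (hw : 0 < w.2) : ∑' g : G0, St.indicator Ψ (ac g w) = ∑' r, Ψ (ac (sec r) w) := by
  rw [← (splitG sec hs).tsum_eq, ENNReal.tsum_prod']
  refine tsum_congr fun r => ?_
  have h := ac_snd_pos (sec r) hw
  simp only [splitG_val, ac_mul, ac_Tm _ h]
  rw [tsum_eq_single (tr (ac (sec r) w).1), indicator_of_mem, hΨ _ _ h]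
  · exact ⟨(add_mem_FF' _ _).2 rfl, h⟩
  · exact fun t ht => indicator_of_notMem (fun e => ht ((add_mem_FF' _ _).1 e.1)) _

theorem tsum_wt {w : ℂ × ℝ} (hw : 0 < w.2) : ∑' g : G0, wt (ac g w) = 1 := by
  rw [wt, fold row_sec0 (fun t w hw => by simp only [inv_Th0.pd t w hw]) hw]
  simp only [inv_Th0 _ w hw, ← hr_row _ hw, row_sec0, div_eq_mul_inv]
  rw [ENNReal.tsum_mul_right]
  exact ENNReal.mul_inv_cancel (Th0_ne_zero w) (Th0_ne_top hw)

theorem tsum_lintegral_muG {f : ℂ × ℝ → ℝ≥0∞} (hf : Measurable f) :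
    ∑' g : G0, ∫⁻ w, f (ac g w) ∂muG = ∫⁻ w, f w ∂dm := by
  have hm : ∀ g : G0, Measurable fun w => wt (ac (g⁻¹ : G0) w) * f w := fun g =>
    (measurable_wt.comp (measurable_ac _)).mul hf
  have h1 : ∀ g : G0, ∫⁻ w, f (ac g w) ∂muG = ∫⁻ w, wt (ac (g⁻¹ : G0) w) * f w ∂dm := fun g => by
    rw [← (mp_ac g).lintegral_comp (hm g), muG,
      lintegral_withDensity_eq_lintegral_mul _ measurable_wt (hf.fun_comp (measurable_ac _))]
    simp [ac_inv_ac]
  simp only [h1]
  rw [← lintegral_tsum fun g => (hm g).aemeasurable]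
  refine lintegral_congr_ae (ae_up.mono fun w hw => ?_)
  simp only
  rw [ENNReal.tsum_mul_right, ← (Equiv.inv G0).tsum_eq]
  simp [tsum_wt hw]

/-- unfolding for nonnegative functions -/
theorem unfold_l (hs : ∀ r, row (sec r) = r) {Ψ : ℂ × ℝ → ℝ≥0∞} (hm : Measurable Ψ) (hΨ : Pd Ψ) :
    ∫⁻ w, ∑' r, Ψ (ac (sec r) w) ∂muG = ∫⁻ w in St, Ψ w ∂dm := by
  have h1 := hm.indicator measurableSet_St
  rw [← lintegral_indicator measurableSet_St, ← tsum_lintegral_muG h1,
    ← lintegral_tsum fun g => (h1.fun_comp (measurable_ac _)).aemeasurable]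
  exact lintegral_congr_ae (ae_up_muG.mono fun w hw => (fold hs hΨ hw).symm)

/-- the projection to the strip -/
noncomputable def pj (w : ℂ × ℝ) : ℂ × ℝ := (w.1 + toC (9 * tr w.1), w.2)

theorem measurable_tr : Measurable fun z => toC (9 * tr z) := by
  have : (fun z => toC (9 * tr z)) = fun z : ℂ => toC 9 *
      (((-⌊(z.re + z.im / √3) / 9⌋ : ℤ) : ℂ) + ((-⌊2 * z.im / √3 / 9⌋ : ℤ) : ℂ) * wC) := by
    funext z
    rw [map_mul, toC_apply (tr z)]
    rfl
  rw [this]
  have hc : Measurable ((↑) : ℤ → ℂ) := Measurable.of_discrete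
  refine measurable_const.mul ((hc.comp (Measurable.neg (Measurable.floor ?_))).add
    ((hc.comp (Measurable.neg (Measurable.floor ?_))).mul measurable_const)) <;> fun_prop

theorem measurable_pj : Measurable pj :=
  (measurable_fst.add (measurable_tr.comp measurable_fst)).prodMk measurable_snd

theorem pd_pj : Pd pj := fun t w _ => by
  have e : w.1 + toC (9 * t) + toC (9 * tr (w.1 + toC (9 * t))) =
      w.1 + toC (9 * (t + tr (w.1 + toC (9 * t)))) := by rw [mul_add, map_add, add_assoc]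
  have h := (add_mem_FF' _ _).2 (rfl : tr (w.1 + toC (9 * t)) = _)
  rw [e] at h
  simp only [pj]
  rw [e, (add_mem_FF' _ _).1 h]

theorem pj_of_mem {w : ℂ × ℝ} (hw : w ∈ St) : pj w = w := by
  have : (0 : O) = tr w.1 := (add_mem_FF' _ _).1 (by simpa using hw.1)
  simp [pj, ← this]

theorem sum_map_muG (hs : ∀ r, row (sec r) = r) :
    (Measure.sum fun r => muG.map (pj ∘ ac (sec r))) = dm.restrict St := by
  refine Measure.ext fun s hs' => ?_
  have hm : Measurable fun w => s.indicator (1 : ℂ × ℝ → ℝ≥0∞) (pj w) :=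
    (measurable_one.indicator hs').comp measurable_pj
  have h := unfold_l hs hm fun t w hw => by simp only [pd_pj t w hw]
  rw [lintegral_tsum fun r => (hm.fun_comp (measurable_ac _)).aemeasurable,
    setLIntegral_congr_fun measurableSet_St (g := s.indicator 1) fun w hw => by
      simp only [pj_of_mem hw], lintegral_indicator_one hs'] at h
  rw [Measure.sum_apply _ hs', ← h]
  refine tsum_congr fun r => ?_
  rw [← lintegral_indicator_one hs',
    lintegral_map (measurable_one.indicator hs') (measurable_pj.comp (measurable_ac _))]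
  rfl

/-- unfolding -/
theorem unfold (hs : ∀ r, row (sec r) = r) {Ψ : ℂ × ℝ → ℂ} (hΨ : Pd Ψ)
    (hi : IntegrableOn Ψ St dm) :
    (∀ r, Integrable (fun w => Ψ (ac (sec r) w)) muG) ∧
      (∀ᵐ w ∂muG, Summable fun r => ‖Ψ (ac (sec r) w)‖) ∧
      Integrable (fun w => ∑' r, Ψ (ac (sec r) w)) muG ∧
      ∫ w, ∑' r, Ψ (ac (sec r) w) ∂muG = ∫ w in St, Ψ w ∂dm := by
  have hm : ∀ r, AEMeasurable (pj ∘ ac (sec r)) muG := fun r =>
    (measurable_pj.comp (measurable_ac _)).aemeasurable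
  rw [IntegrableOn, ← sum_map_muG hs] at hi
  have h1 : ∀ r, Integrable Ψ (muG.map (pj ∘ ac (sec r))) := fun r =>
    hi.mono_measure (Measure.le_sum (fun r => muG.map (pj ∘ ac (sec r))) r)
  have he : ∀ r, Ψ ∘ pj ∘ ac (sec r) =ᵐ[muG] fun w => Ψ (ac (sec r) w) := fun r =>
    ae_up_muG.mono fun w hw => hΨ _ _ (ac_snd_pos _ hw)
  have h2 : ∀ r, Integrable (fun w => Ψ (ac (sec r) w)) muG := fun r =>
    ((h1 r).comp_aemeasurable (hm r)).congr (he r)
  have h3 : ∑' r, ∫⁻ w, ‖Ψ (ac (sec r) w)‖ₑ ∂muG < ⊤ := by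
    have := hi.2
    rw [HasFiniteIntegral, lintegral_sum_measure] at this
    refine lt_of_eq_of_lt (tsum_congr fun r => ?_) this
    rw [lintegral_map' (h1 r).1.enorm (hm r)]
    exact lintegral_congr_ae ((he r).mono fun w hw => congrArg enorm hw.symm)
  have h4 := h3
  rw [← lintegral_tsum fun r => (h2 r).1.enorm] at h4
  refine ⟨h2, ?_, ⟨?_, lt_of_le_of_lt (lintegral_mono fun w => enorm_tsum_le_tsum_enorm) h4⟩, ?_⟩
  · refine (ae_lt_top' (AEMeasurable.tsum fun r => (h2 r).1.enorm) h4.ne).mono fun w hw => ?_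
    exact ENNReal.tsum_coe_ne_top_iff_summable_coe.1 hw.ne
  · exact AEStronglyMeasurable.tsum fun r => (h2 r).1
  · rw [integral_tsum (fun r => (h2 r).1) h3.ne, ← sum_map_muG hs, integral_sum_measure hi]
    refine tsum_congr fun r => ?_
    rw [integral_map (hm r) (h1 r).1]
    exact integral_congr_ae (he r).symm

/-- the integral of an invariant function over the part of the strip above height `δ` -/
theorem cusp_le {Φ : ℂ × ℝ → ℝ≥0∞} (hm : Measurable Φ) (hΦ : Inv Φ) {δ : ℝ} (hδ : 0 < δ) :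
    ∫⁻ w in FF ×ˢ Ici δ, Φ w ∂dm ≤ ENNReal.ofReal (64 * (1 + δ⁻¹ ^ 2)) * ∫⁻ w, Φ w ∂muG := by
  have hS : MeasurableSet {w : ℂ × ℝ | δ ≤ w.2} := measurableSet_le measurable_const measurable_snd
  have e : FF ×ˢ Ici δ = {w : ℂ × ℝ | δ ≤ w.2} ∩ St := by
    ext w
    exact ⟨fun h => ⟨h.2, h.1, hδ.trans_le h.2⟩, fun h => ⟨h.2.1, h.1⟩⟩
  rw [e, ← Measure.restrict_restrict hS, ← lintegral_indicator hS,
    ← unfold_l row_sec0 (hm.indicator hS) fun t w hw => by
      simp only [indicator, mem_ofPred_eq, hΦ.pd t w hw], ← lintegral_const_mul _ hm]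
  refine lintegral_mono_ae (ae_up_muG.mono fun w hw => ?_)
  obtain ⟨a, b⟩ := pack hw hδ
  have e2 : ∀ r, {w : ℂ × ℝ | δ ≤ w.2}.indicator Φ (ac (sec0 r) w) =
      {r : Row | δ ≤ hr r w}.indicator (fun _ => 1) r * Φ w := fun r => by
    simp only [indicator, mem_ofPred_eq, hΦ _ w hw, ← hr_row _ hw, row_sec0, ite_mul, one_mul,
      zero_mul]
  simp only [e2]
  rw [ENNReal.tsum_mul_right, ← tsum_subtype, ENNReal.tsum_set_one, ← a.cast_ncard_eq]
  refine mul_le_mul_left ?_ _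
  simpa using ENNReal.ofReal_le_ofReal b

end Pool.Agent.P.MP_26a8c3_nt.QH
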