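import Pool.Agent.P.MP_26a8c3_nt.QH.Unf
import Pool.Agent.P.MP_26a8c3_nt.QO.Poi

/-!
Integrals over the parallelogram and over boxes.
-/

namespace Pool.Agent.P.MP_26a8c3_nt.QH

open MeasureTheory Set Complex QO
open scoped MatrixGroups ComplexConjugate ENNReal Pointwise

/-- the area of the parallelogram -/
noncomputable def V9 : ℝ := (volume FF).toReal

theorem V9_pos : 0 < V9 := ENNReal.toReal_pos volume_FF_pos.ne' volume_FF_lt_top.ne

theorem ofReal_V9 : ENNReal.ofReal V9 = volume FF := ENNReal.ofReal_toReal volume_FF_lt_top.ne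

instance : IsFiniteMeasure (volume.restrict FF) := isFiniteMeasure_restrict.2 volume_FF_lt_top.ne

/-- the lattice `9 O` in the plane -/
noncomputable def L9 : AddSubgroup ℂ :=
  (toC.toAddMonoidHom.comp (AddMonoidHom.mulLeft (9 : O))).range

/-- the parametrisation of the lattice -/
noncomputable def eL9 : O ≃ L9 :=
  Equiv.ofBijective (fun t => ⟨toC (9 * t), t, rfl⟩) ⟨fun a b e =>
    mul_left_cancel₀ (show (9 : O) ≠ 0 by decide) (toC_injective (congrArg Subtype.val e)), by
    rintro ⟨_, t, rfl⟩
    exact ⟨t, rfl⟩⟩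

theorem eL9_vadd (t : O) (z : ℂ) : eL9 t +ᵥ z = z + toC (9 * t) := add_comm _ _

instance : Countable L9 := eL9.symm.injective.countable

theorem fund_FF : IsAddFundamentalDomain L9 FF volume :=
  IsAddFundamentalDomain.mk' measurableSet_FF.nullMeasurableSet fun z => by
    rw [← eL9.existsUnique_congr_right]
    simpa only [eL9_vadd] using existsUnique_FF z

theorem lintegral_eq_tsum_FF (f : ℂ → ℝ≥0∞) :
    ∫⁻ z, f z = ∑' t : O, ∫⁻ z in FF, f (z + toC (9 * t)) := by
  rw [fund_FF.lintegral_eq_tsum'' f, ← eL9.tsum_eq]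
  simp only [eL9_vadd]

theorem integral_eq_tsum_FF {f : ℂ → ℂ} (hf : Integrable f) :
    ∫ z, f z = ∑' t : O, ∫ z in FF, f (z + toC (9 * t)) := by
  rw [fund_FF.integral_eq_tsum'' f hf, ← eL9.tsum_eq]
  simp only [eL9_vadd]

theorem integral_FF_add {f : ℂ → ℂ} (hf : ∀ (t : O) z, f (z + toC (9 * t)) = f z) (a : ℂ) :
    ∫ z in FF, f (z + a) = ∫ z in FF, f z := by
  rw [fund_FF.setIntegral_eq (fund_FF.vadd_of_comm a) (f := f) fun g z => by
    obtain ⟨t, rfl⟩ := eL9.surjective g
    rw [eL9_vadd, hf]]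
  rw [← image_vadd, (measurePreserving_vadd a volume).setIntegral_image_emb
    (measurableEmbedding_const_vadd a)]
  simp only [vadd_eq_add, add_comm]

theorem lintegral_FF_add {f : ℂ → ℝ≥0∞} (hf : ∀ (t : O) z, f (z + toC (9 * t)) = f z) (a : ℂ) :
    ∫⁻ z in FF, f (z + a) = ∫⁻ z in FF, f z := by
  rw [fund_FF.setLIntegral_eq (fund_FF.vadd_of_comm a) f fun g z => by
    obtain ⟨t, rfl⟩ := eL9.surjective g
    rw [eL9_vadd, hf]]
  rw [← image_vadd, ← (measurePreserving_vadd a volume).setLIntegral_comp_emb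
    (measurableEmbedding_const_vadd a)]
  simp only [vadd_eq_add, add_comm]

/-- the characters of the torus -/
noncomputable def ch (m : O) (z : ℂ) : ℂ := ex (toC m * z / (toC lam * 9))

theorem norm_ch (m : O) (z : ℂ) : ‖ch m z‖ = 1 := norm_ex _

theorem ch_add (m : O) (z z' : ℂ) : ch m (z + z') = ch m z * ch m z' := by
  rw [ch, mul_add, add_div, ex_add]
  rfl

theorem ch_add_left (m n : O) (z : ℂ) : ch (m + n) z = ch m z * ch n z := by
  rw [ch, map_add, add_mul, add_div, ex_add]
  rfl

theorem ch_zero_left (z : ℂ) : ch 0 z = 1 := by simp [ch]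

theorem ch_zero (m : O) : ch m 0 = 1 := by simp [ch]

theorem conj_ch (m : O) (z : ℂ) : conj (ch m z) = ch (-m) z := by
  have h1 : ch m z * ch (-m) z = 1 := by rw [← ch_add_left, add_neg_cancel, ch_zero_left]
  rw [← Complex.inv_eq_conj (norm_ch m z), eq_comm]
  exact eq_inv_of_mul_eq_one_right h1

theorem ch_neg (m : O) (z : ℂ) : ch m (-z) = ch (-m) z := by simp [ch]

theorem toC_nine : toC 9 = 9 := map_ofNat toC 9

theorem ch_toC (m x : O) : ch m (toC x) = el (m * x) 9 := by
  rw [el_eq_ex, ch, map_mul, toC_nine]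

theorem ch_per (m t : O) (z : ℂ) : ch m (z + toC (9 * t)) = ch m z := by
  rw [ch_add, ch_toC, el_dvd ((dvd_mul_right 9 t).mul_left m), mul_one]

theorem continuous_ch (m : O) : Continuous (ch m) := by
  unfold ch ex
  fun_prop

theorem integral_ch (m : O) : ∫ z in FF, ch m z = if m = 0 then (V9 : ℂ) else 0 := by
  split_ifs with h
  · simp [h, ch_zero_left, V9, Measure.real]
  · have h1 := toC_ne_zero h
    have h2 := toC_ne_zero lam_ne_zero
    have e : ch m (toC lam * 9 / (4 * toC m)) = -1 := by
      rw [ch, show toC m * (toC lam * 9 / (4 * toC m)) / (toC lam * 9) = ((1 / 4 : ℝ) : ℂ) by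
        push_cast
        field_simp, ex, ofReal_re, ← exp_pi_mul_I]
      congr 1
      push_cast
      ring
    have := integral_FF_add (ch_per m) (toC lam * 9 / (4 * toC m))
    simp only [ch_add, e, mul_neg, mul_one, integral_neg] at this
    linear_combination (-1 / 2) * this

theorem integral_ch_mul_conj (m n : O) :
    ∫ z in FF, ch m z * conj (ch n z) = if m = n then (V9 : ℂ) else 0 := by
  simp only [conj_ch, ← ch_add_left, integral_ch, add_neg_eq_zero]

section series

variable {a b : O → ℂ}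

theorem summable_ch (ha : Summable fun m => ‖a m‖) (z : ℂ) :
    Summable fun m => ‖a m * ch m z‖ := by simpa only [norm_mul, norm_ch, mul_one] using ha

theorem continuous_series (ha : Summable fun m => ‖a m‖) :
    Continuous fun z => ∑' m, a m * ch m z :=
  continuous_tsum (fun m => continuous_const.mul (continuous_ch m)) ha fun m z => by
    rw [norm_mul, norm_ch, mul_one]

theorem norm_series_le (ha : Summable fun m => ‖a m‖) (z : ℂ) :
    ‖∑' m, a m * ch m z‖ ≤ ∑' m, ‖a m‖ := by
  simpa only [norm_mul, norm_ch, mul_one] using norm_tsum_le_tsum_norm (summable_ch ha z)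

/-- termwise integration against a bounded function -/
theorem hasSum_integral_series (ha : Summable fun m => ‖a m‖) {f : ℂ → ℂ}
    (hf : IntegrableOn f FF) : HasSum (fun m => a m * ∫ z in FF, ch m z * f z)
      (∫ z in FF, (∑' m, a m * ch m z) * f z) := by
  have h1 : ∀ m, Integrable (fun z => a m * (ch m z * f z)) (volume.restrict FF) := fun m =>
    (hf.bdd_mul (c := 1) (continuous_ch m).aestronglyMeasurable
      (Filter.Eventually.of_forall fun z => (norm_ch m z).le)).const_mul _
  have := hasSum_integral_of_summable_integral_norm h1 (by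
    simp only [norm_mul, norm_ch, one_mul, integral_const_mul]
    exact ha.mul_right _)
  simp only [integral_const_mul] at this
  simpa only [← mul_assoc, tsum_mul_right] using this

theorem integrableOn_FF {f : ℂ → ℂ} (hf : Continuous f) : IntegrableOn f FF :=
  (hf.continuousOn.integrableOn_compact (isCompact_closedBall 0 18)).mono_set
    fun _ hz => mem_closedBall_zero_iff.2 (norm_le_of_FF hz)

/-- the coefficients of a series -/
theorem integral_series_mul_conj (ha : Summable fun m => ‖a m‖) (n : O) :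
    ∫ z in FF, (∑' m, a m * ch m z) * conj (ch n z) = V9 * a n := by
  have := hasSum_integral_series ha (f := fun z => conj (ch n z))
    (integrableOn_FF (continuous_conj.comp (continuous_ch n)))
  rw [this.unique (hasSum_single n fun m h => by rw [integral_ch_mul_conj, if_neg h, mul_zero]),
    integral_ch_mul_conj, if_pos rfl, mul_comm]

theorem integral_series (ha : Summable fun m => ‖a m‖) :
    ∫ z in FF, ∑' m, a m * ch m z = V9 * a 0 := by
  simpa [ch_zero_left] using integral_series_mul_conj ha 0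

/-- the identity of Parseval -/
theorem parseval (ha : Summable fun m => ‖a m‖) (hb : Summable fun m => ‖b m‖) :
    HasSum (fun m => V9 * (a m * conj (b m)))
      (∫ z in FF, (∑' m, a m * ch m z) * conj (∑' m, b m * ch m z)) := by
  have := hasSum_integral_series ha (f := fun z => conj (∑' m, b m * ch m z))
    (integrableOn_FF (continuous_conj.comp (continuous_series hb)))
  have e : ∀ m, ∫ z in FF, ch m z * conj (∑' m, b m * ch m z) = V9 * conj (b m) := fun m => by
    have h := congrArg conj (integral_series_mul_conj hb m)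
    rw [← integral_conj] at h
    simpa only [map_mul, conj_conj, conj_ofReal, mul_comm] using h
  simpa only [e, mul_left_comm] using this

theorem parseval_norm (ha : Summable fun m => ‖a m‖) :
    HasSum (fun m => V9 * ‖a m‖ ^ 2) (∫ z in FF, ‖∑' m, a m * ch m z‖ ^ 2) := by
  have := parseval ha ha
  simp only [mul_conj, normSq_eq_norm_sq] at this
  rw [integral_complex_ofReal] at this
  exact_mod_cast this

end series

section fubini

theorem lintegral_nu (f : ℝ → ℝ≥0∞) :
    ∫⁻ v, f v ∂nu = ∫⁻ v in Ioi 0, ENNReal.ofReal (v ^ 3)⁻¹ * f v :=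
  lintegral_withDensity_eq_lintegral_mul_non_measurable _ measurable_rho
    (Filter.Eventually.of_forall fun _ => ENNReal.ofReal_lt_top) f

theorem nu_restrict {I : Set ℝ} (hI : MeasurableSet I) (h : I ⊆ Ioi 0) :
    nu.restrict I = (volume.restrict I).withDensity fun v => ENNReal.ofReal (v ^ 3)⁻¹ := by
  rw [nu, restrict_withDensity hI, Measure.restrict_restrict hI, inter_eq_left.2 h]

theorem setLIntegral_nu {I : Set ℝ} (hI : MeasurableSet I) (h : I ⊆ Ioi 0) (f : ℝ → ℝ≥0∞) :
    ∫⁻ v in I, f v ∂nu = ∫⁻ v in I, ENNReal.ofReal (v ^ 3)⁻¹ * f v := by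
  rw [nu_restrict hI h]
  exact lintegral_withDensity_eq_lintegral_mul_non_measurable _ measurable_rho
    (Filter.Eventually.of_forall fun _ => ENNReal.ofReal_lt_top) f

variable {E : Type*} [NormedAddCommGroup E] [NormedSpace ℝ E]

theorem setIntegral_nu {I : Set ℝ} (hI : MeasurableSet I) (h : I ⊆ Ioi 0) (f : ℝ → E) :
    ∫ v in I, f v ∂nu = ∫ v in I, (v ^ 3)⁻¹ • f v := by
  rw [nu_restrict hI h, integral_withDensity_eq_integral_toReal_smul measurable_rho
    (Filter.Eventually.of_forall fun _ => ENNReal.ofReal_lt_top)]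
  refine setIntegral_congr_fun hI fun v hv => ?_
  have : 0 < v := h hv
  rw [ENNReal.toReal_ofReal (by positivity)]

theorem integrableOn_nu {I : Set ℝ} (hI : MeasurableSet I) (h : I ⊆ Ioi 0) {f : ℝ → E} :
    IntegrableOn f I nu ↔ IntegrableOn (fun v => (v ^ 3)⁻¹ • f v) I := by
  rw [IntegrableOn, nu_restrict hI h, integrable_withDensity_iff_integrable_smul' measurable_rho
    (Filter.Eventually.of_forall fun _ => ENNReal.ofReal_lt_top)]
  refine integrableOn_congr_fun (fun v hv => ?_) hI
  have : 0 < v := h hv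
  rw [ENNReal.toReal_ofReal (by positivity)]

theorem dm_restrict (A : Set ℂ) (I : Set ℝ) :
    dm.restrict (A ×ˢ I) = (volume.restrict A).prod (nu.restrict I) :=
  (Measure.prod_restrict A I).symm

theorem lintegral_box (A : Set ℂ) {I : Set ℝ} (hI : MeasurableSet I) (h : I ⊆ Ioi 0)
    {f : ℂ × ℝ → ℝ≥0∞} (hf : AEMeasurable f (dm.restrict (A ×ˢ I))) :
    ∫⁻ w in A ×ˢ I, f w ∂dm = ∫⁻ v in I, ENNReal.ofReal (v ^ 3)⁻¹ * ∫⁻ z in A, f (z, v) := by
  rw [dm_restrict] at hf ⊢
  rw [lintegral_prod_symm _ hf, setLIntegral_nu hI h]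

theorem integral_box (A : Set ℂ) {I : Set ℝ} (hI : MeasurableSet I) (h : I ⊆ Ioi 0)
    {f : ℂ × ℝ → E} (hf : IntegrableOn f (A ×ˢ I) dm) :
    ∫ w in A ×ˢ I, f w ∂dm = ∫ v in I, (v ^ 3)⁻¹ • ∫ z in A, f (z, v) := by
  rw [IntegrableOn, dm_restrict] at hf
  rw [dm_restrict, integral_prod_symm _ hf, setIntegral_nu hI h]

omit [NormedSpace ℝ E] in
/-- a function dominated by a function of the height is integrable on a box -/
theorem integrableOn_box {I : Set ℝ} (hI : MeasurableSet I) (h : I ⊆ Ioi 0) {f : ℂ × ℝ → E}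
    (hf : AEStronglyMeasurable f (dm.restrict (FF ×ˢ I))) {φ : ℝ → ℝ}
    (hφ : IntegrableOn (fun v => (v ^ 3)⁻¹ * φ v) I) (hb : ∀ w ∈ FF ×ˢ I, ‖f w‖ ≤ φ w.2) :
    IntegrableOn f (FF ×ˢ I) dm := by
  refine Integrable.mono' (g := fun w => φ w.2) ?_ hf
    ((ae_restrict_mem (measurableSet_FF.prod hI)).mono hb)
  rw [dm_restrict]
  exact ((integrableOn_nu hI h).2 hφ).comp_snd _

omit [NormedSpace ℝ E] in
/-- functions continuous on the upper half space are measurable -/
theorem aesm_of_continuousOn {f : ℂ × ℝ → E} [SecondCountableTopology E]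
    (hf : ContinuousOn f {w | 0 < w.2}) : AEStronglyMeasurable f dm := by
  have := hf.aestronglyMeasurable (μ := dm) measurableSet_up
  rwa [Measure.restrict_eq_self_of_ae_mem (s := {w : ℂ × ℝ | 0 < w.2}) ae_up] at this

end fubini

end Pool.Agent.P.MP_26a8c3_nt.QH
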