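import Pool.Agent.P.MP_26a8c3_nt.QH.H3
import Pool.Agent.P.MP_26a8c3_nt.QO.Eis

/-!
The group `G0`, its bottom rows, the packing bound and the parallelogram of `9 O`.
-/

namespace Pool.Agent.P.MP_26a8c3_nt.QH

open MeasureTheory Set Complex QO
open scoped MatrixGroups ComplexConjugate ENNReal

/-- the action of `SL(2, O)` -/
noncomputable def ac (g : SL(2, O)) : ℂ × ℝ → ℂ × ℝ := act (Matrix.SpecialLinearGroup.map toC g)

theorem map_app (g : SL(2, O)) (i j : Fin 2) :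
    Matrix.SpecialLinearGroup.map toC g i j = toC (g i j) := rfl

theorem ac_mul (g h : SL(2, O)) (w : ℂ × ℝ) : ac (g * h) w = ac g (ac h w) := by
  rw [ac, map_mul, act_mul]
  rfl

theorem ac_one (w : ℂ × ℝ) : ac 1 w = w := by rw [ac, map_one, act_one]

theorem ac_inv_ac (g : SL(2, O)) (w : ℂ × ℝ) : ac g⁻¹ (ac g w) = w := by
  rw [← ac_mul, inv_mul_cancel, ac_one]

theorem ac_ac_inv (g : SL(2, O)) (w : ℂ × ℝ) : ac g (ac g⁻¹ w) = w := by
  rw [← ac_mul, mul_inv_cancel, ac_one]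

theorem measurable_ac (g : SL(2, O)) : Measurable (ac g) := measurable_act _

theorem continuousOn_ac (g : SL(2, O)) : ContinuousOn (ac g) {w | 0 < w.2} := continuousOn_act _

theorem mp_ac (g : SL(2, O)) : MeasurePreserving (ac g) dm dm := mp_act _

theorem ac_snd (g : SL(2, O)) {w : ℂ × ℝ} (hw : 0 < w.2) :
    (ac g w).2 = ht (toC (g 1 0)) (toC (g 1 1)) w := act_snd _ hw

theorem ac_snd_pos (g : SL(2, O)) {w : ℂ × ℝ} (hw : 0 < w.2) : 0 < (ac g w).2 := act_snd_pos _ hw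

theorem ac_pos (g : SL(2, O)) {w : ℂ × ℝ} (hw : 0 < w.2) : ac g w =
    (Bf (toC (g 0 0)) (toC (g 0 1)) (toC (g 1 0)) (toC (g 1 1)) w /
      Dl (toC (g 1 0)) (toC (g 1 1)) w, ht (toC (g 1 0)) (toC (g 1 1)) w) := act_pos _ hw

theorem ht_ac (g : SL(2, O)) (c d : O) {w : ℂ × ℝ} (hw : 0 < w.2) :
    ht (toC c) (toC d) (ac g w) =
      ht (toC (c * g 0 0 + d * g 1 0)) (toC (c * g 0 1 + d * g 1 1)) w := by
  simp only [map_add, map_mul]
  exact ht_act _ _ _ hw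

theorem Dl_ac (g : SL(2, O)) (c d : O) {w : ℂ × ℝ} (hw : 0 < w.2) :
    Dl (toC c) (toC d) (ac g w) =
      Dl (toC (c * g 0 0 + d * g 1 0)) (toC (c * g 0 1 + d * g 1 1)) w /
        Dl (toC (g 1 0)) (toC (g 1 1)) w := by
  simp only [map_add, map_mul]
  exact Dl_act _ _ _ hw

theorem ac_Tm (t : O) {w : ℂ × ℝ} (hw : 0 < w.2) : ac (Tm t) w = (w.1 + toC t, w.2) := by
  rw [← act_Tm _ hw, ac]
  congr 1
  exact sl_ext (by simp [map_app]) (by simp [map_app]) (by simp [map_app]) (by simp [map_app])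

theorem inv_app {R : Type*} [CommRing R] (g : SL(2, R)) :
    g⁻¹ 0 0 = g 1 1 ∧ g⁻¹ 0 1 = -g 0 1 ∧ g⁻¹ 1 0 = -g 1 0 ∧ g⁻¹ 1 1 = g 0 0 := by
  rw [Matrix.SpecialLinearGroup.SL2_inv_expl]
  exact ⟨rfl, rfl, rfl, rfl⟩

theorem three_dvd_nine : (3 : O) ∣ 9 := ⟨3, by norm_num⟩

theorem primary00 {g : SL(2, O)} (h : (9 : O) ∣ g 0 1) (h' : Primary (g 1 1)) :
    Primary (g 0 0) := by
  refine Primary.of_mul (primary_one.of_dvd_sub ?_) h'
  have : g 1 1 * g 0 0 - 1 = g 0 1 * g 1 0 := by linear_combination det2 g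
  rw [this]
  exact (three_dvd_nine.trans h).mul_right _

/-- the group -/
def G0 : Subgroup SL(2, O) where
  carrier := {g | (9 : O) ∣ g 0 1 ∧ Primary (g 1 1)}
  one_mem' := ⟨by simp, by simpa using primary_one⟩
  mul_mem' := fun {g h} hg hh => by
    refine ⟨?_, ?_⟩
    · rw [mul_app]
      exact dvd_add (hh.1.mul_left _) (hg.1.mul_right _)
    · rw [mul_app]
      exact (hg.2.mul hh.2).of_dvd_sub (by
        simpa using (three_dvd_nine.trans hh.1).mul_left _)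
  inv_mem' := fun {g} hg => by
    obtain ⟨-, h1, -, h2⟩ := inv_app g
    exact ⟨h1 ▸ hg.1.neg_right, h2 ▸ primary00 hg.1 hg.2⟩

theorem mem_G0 {g : SL(2, O)} : g ∈ G0 ↔ (9 : O) ∣ g 0 1 ∧ Primary (g 1 1) := Iff.rfl

theorem Tm_mem {t : O} : Tm t ∈ G0 ↔ (9 : O) ∣ t := by simp [mem_G0, primary_one]

theorem Um_mem (c : O) : Um c ∈ G0 := by simp [mem_G0, primary_one]

instance : Countable SL(2, O) :=
  (show Function.Injective fun g : SL(2, O) => (g 0 0, g 0 1, g 1 0, g 1 1) from fun g h e => by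
    simp only [Prod.mk.injEq] at e
    exact sl_ext e.1 e.2.1 e.2.2.1 e.2.2.2).countable

/-- the bottom rows -/
abbrev Row : Type := {r : O × O // IsCoprime r.1 r.2 ∧ Primary r.2}

theorem cop_row (g : SL(2, O)) : IsCoprime (g 1 0) (g 1 1) :=
  ⟨-g 0 1, g 0 0, by linear_combination det2 g⟩

/-- the bottom row of an element of the group -/
def row (g : G0) : Row := ⟨(g.1 1 0, g.1 1 1), cop_row g.1, g.2.2⟩

theorem row_surj : Function.Surjective row := by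
  rintro ⟨⟨c, d⟩, h1, h2⟩
  have h3 : IsCoprime ((9 : O) * c) d := by
    refine IsCoprime.mul_left ?_ h1
    rw [show (9 : O) = 3 * 3 by norm_num]
    exact h2.isCoprime_three.symm.mul_left h2.isCoprime_three.symm
  obtain ⟨x, y, e⟩ := h3
  exact ⟨⟨⟨!![y, -(9 * x); c, d], by rw [Matrix.det_fin_two_of]; linear_combination e⟩,
    (dvd_mul_right 9 x).neg_right, h2⟩, rfl⟩

/-- a section -/
noncomputable def sec0 : Row → G0 := Function.surjInv row_surj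

theorem row_sec0 (r : Row) : row (sec0 r) = r := Function.surjInv_eq row_surj r

/-- the height attached to a row -/
noncomputable def hr (r : Row) (w : ℂ × ℝ) : ℝ := ht (toC r.1.1) (toC r.1.2) w

theorem hr_pos (r : Row) {w : ℂ × ℝ} (hw : 0 < w.2) : 0 < hr r w :=
  ht_pos (Or.inr (toC_ne_zero r.2.2.ne_zero)) hw

theorem hr_row (g : G0) {w : ℂ × ℝ} (hw : 0 < w.2) : hr (row g) w = (ac g w).2 :=
  (ac_snd g hw).symm

theorem measurable_hr (r : Row) : Measurable (hr r) := measurable_ht _ _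

/-- the row `(0, 1)` -/
def r0 : Row := ⟨(0, 1), isCoprime_one_right, primary_one⟩

theorem hr_r0 (w : ℂ × ℝ) : hr r0 w = w.2 := by simp [hr, r0, ht, Dl]

theorem row_mul_val (h g : G0) : (row (h * g)).1 =
    ((row h).1.1 * g.1 0 0 + (row h).1.2 * g.1 1 0,
      (row h).1.1 * g.1 0 1 + (row h).1.2 * g.1 1 1) :=
  Prod.ext (mul_app _ _ _ _) (mul_app _ _ _ _)

theorem row_mul_congr {h h' : G0} (e : row h = row h') (g : G0) : row (h * g) = row (h' * g) :=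
  Subtype.ext (by rw [row_mul_val, row_mul_val, e])

/-- right multiplication of rows -/
noncomputable def rmul (g : G0) : Row ≃ Row where
  toFun r := row (sec0 r * g)
  invFun r := row (sec0 r * g⁻¹)
  left_inv r := by
    simp only
    rw [row_mul_congr (row_sec0 _), mul_inv_cancel_right, row_sec0]
  right_inv r := by
    simp only
    rw [row_mul_congr (row_sec0 _), inv_mul_cancel_right, row_sec0]

theorem rmul_val (g : G0) (r : Row) : (rmul g r).1 =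
    (r.1.1 * g.1 0 0 + r.1.2 * g.1 1 0, r.1.1 * g.1 0 1 + r.1.2 * g.1 1 1) := by
  change (row (sec0 r * g)).1 = _
  rw [row_mul_val, row_sec0]

theorem rmul_row (g h : G0) : rmul g (row h) = row (h * g) := row_mul_congr (row_sec0 _) g

theorem hr_ac (g : G0) (r : Row) {w : ℂ × ℝ} (hw : 0 < w.2) :
    hr r (ac g w) = hr (rmul g r) w := by
  rw [hr, hr, rmul_val, ht_ac _ _ _ hw]

/-- two elements with the same bottom row differ by a translation -/
theorem row_eq {g h : G0} (e : row g = row h) : ∃ t : O, g.1 = Tm (9 * t) * h.1 := by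
  have e1 : row (g * h⁻¹) = row 1 := by rw [row_mul_congr e, mul_inv_cancel]
  have e2 : (g * h⁻¹).1 1 0 = 0 := congrArg (·.1.1) e1
  have e3 : (g * h⁻¹).1 1 1 = 1 := congrArg (·.1.2) e1
  obtain ⟨t, ht⟩ := (g * h⁻¹).2.1
  have e4 := det2 (g * h⁻¹).1
  rw [e2, e3, mul_one, mul_zero, sub_zero] at e4
  have e5 : (g * h⁻¹).1 = Tm (9 * t) := sl_ext e4 ht e2 e3
  exact ⟨t, by rw [← e5]; simp⟩

theorem row_Tm (t : O) (h : G0) : row (⟨Tm (9 * t), Tm_mem.2 (dvd_mul_right 9 t)⟩ * h) = row h :=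
  Subtype.ext (by rw [row_mul_val]; simp [row])

/-- the group is the product of the translations and the rows -/
noncomputable def splitG (sec : Row → G0) (hs : ∀ r, row (sec r) = r) : Row × O ≃ G0 :=
  Equiv.ofBijective (fun p => ⟨Tm (9 * p.2), Tm_mem.2 (dvd_mul_right 9 p.2)⟩ * sec p.1) ⟨by
    rintro ⟨r, t⟩ ⟨r', t'⟩ e
    have e1 := congrArg row e
    simp only [row_Tm, hs] at e1
    subst e1
    have e2 : (9 : O) * t = 9 * t' := congrArg (fun g : G0 => g.1 0 1) (mul_right_cancel e)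
    have h9 : (9 : O) ≠ 0 := by decide
    rw [mul_left_cancel₀ h9 e2], fun g => by
    obtain ⟨t, ht⟩ := row_eq (hs (row g)).symm
    exact ⟨(row g, t), Subtype.ext ht.symm⟩⟩

theorem splitG_val (sec : Row → G0) (hs : ∀ r, row (sec r) = r) (p : Row × O) :
    (splitG sec hs p).1 = Tm (9 * p.2) * (sec p.1).1 := rfl

section pack

theorem pack_disc {ι : Type*} (S : Set ι) (f : ι → ℂ) {δ : ℝ} (hδ : 0 < δ)
    (h1 : ∀ i ∈ S, ‖f i‖ ≤ 1) (h2 : ∀ i ∈ S, ∀ j ∈ S, i ≠ j → δ ≤ ‖f i - f j‖) :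
    S.Finite ∧ (S.ncard : ℝ) ≤ 32 * (1 + δ⁻¹ ^ 2) := by
  set K : ℕ := ⌈2 / δ⌉₊ with hK
  have hK1 : 2 / δ ≤ K := Nat.le_ceil _
  have hK2 : (K : ℝ) < 2 / δ + 1 := Nat.ceil_lt_add_one (by positivity)
  let T : Finset (ℤ × ℤ) := Finset.Icc (-(K : ℤ)) K ×ˢ Finset.Icc (-(K : ℤ)) K
  let φ : ι → ℤ × ℤ := fun i => (⌊2 / δ * (f i).re⌋, ⌊2 / δ * (f i).im⌋)
  have hδ' : 0 < 2 / δ := by positivity
  have hb : ∀ x : ℝ, |x| ≤ 1 → ⌊2 / δ * x⌋ ∈ Finset.Icc (-(K : ℤ)) K := fun x hx => by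
    obtain ⟨a, b⟩ := abs_le.1 hx
    refine Finset.mem_Icc.2 ⟨Int.le_floor.2 ?_, ?_⟩
    · push_cast
      nlinarith
    · have : (⌊2 / δ * x⌋ : ℝ) ≤ ((K : ℤ) : ℝ) := (Int.floor_le _).trans (by push_cast; nlinarith)
      exact_mod_cast this
  have hc : ∀ x y : ℝ, ⌊2 / δ * x⌋ = ⌊2 / δ * y⌋ → |x - y| < δ / 2 := fun x y e => by
    have := Int.abs_sub_lt_one_of_floor_eq_floor e
    rw [← mul_sub, abs_mul, abs_of_pos hδ', div_mul_eq_mul_div, div_lt_one hδ] at this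
    linarith
  have hm : ∀ i ∈ S, φ i ∈ (T : Set (ℤ × ℤ)) := fun i hi =>
    Finset.mem_coe.2 (Finset.mem_product.2 ⟨hb _ ((abs_re_le_norm _).trans (h1 i hi)),
      hb _ ((abs_im_le_norm _).trans (h1 i hi))⟩)
  have hi : InjOn φ S := fun i hi j hj e => by
    by_contra hn
    have a := hc _ _ (congrArg Prod.fst e)
    have b := hc _ _ (congrArg Prod.snd e)
    have c := (h2 i hi j hj hn).trans (norm_le_abs_re_add_abs_im _)
    rw [sub_re, sub_im] at c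
    linarith
  refine ⟨Finite.of_finite_image (T.finite_toSet.subset (image_subset_iff.2 hm)) hi, ?_⟩
  have hT : T.card = (2 * K + 1) ^ 2 := by
    have : ((K : ℤ) + 1 - -(K : ℤ)).toNat = 2 * K + 1 := by omega
    simp only [T, Finset.card_product, Int.card_Icc, this, sq]
  have := ncard_le_ncard_of_injOn φ hm hi T.finite_toSet
  rw [ncard_coe_finset, hT] at this
  have h3 : (S.ncard : ℝ) ≤ (2 * K + 1) ^ 2 := by exact_mod_cast this
  have h4 : (2 * K + 1 : ℝ) ≤ 4 * δ⁻¹ + 3 := by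
    rw [div_eq_mul_inv] at hK2
    linarith
  have h5 := pow_le_pow_left₀ (by positivity) h4 2
  nlinarith [sq_nonneg (4 * δ⁻¹ - 3)]

theorem row_det {r s : Row} (h : r ≠ s) : 1 ≤ ‖toC (r.1.1 * s.1.2 - s.1.1 * r.1.2)‖ := by
  have hne : r.1.1 * s.1.2 - s.1.1 * r.1.2 ≠ 0 := fun e => h (by
    rw [sub_eq_zero] at e
    have a : r.1.2 ∣ s.1.2 := r.2.1.symm.dvd_of_dvd_mul_left ⟨s.1.1, by rw [e, mul_comm]⟩
    have b : s.1.2 ∣ r.1.2 := s.2.1.symm.dvd_of_dvd_mul_left ⟨r.1.1, by rw [← e, mul_comm]⟩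
    have c := r.2.2.eq_of_associated s.2.2 (associated_of_dvd_dvd a b)
    rw [← c] at e
    exact Subtype.ext (Prod.ext (mul_right_cancel₀ r.2.2.ne_zero e) c))
  rw [norm_toC]
  exact Real.one_le_sqrt.2 (one_le_N hne)

theorem pack_half (S : Set Row) (x y : Row → ℂ) {v δ : ℝ} (hδ : 0 < δ)
    (h0 : ∀ r ∈ S, y r ≠ 0) (h1 : ∀ r ∈ S, ‖x r‖ ≤ ‖y r‖) (h2 : ∀ r ∈ S, ‖y r‖ ^ 2 * δ ≤ v)
    (h3 : ∀ r s, r ≠ s → v ≤ ‖x r * y s - x s * y r‖) :
    S.Finite ∧ (S.ncard : ℝ) ≤ 32 * (1 + δ⁻¹ ^ 2) := by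
  refine pack_disc S (fun r => x r / y r) hδ (fun r hr => ?_) fun r hr s hs hn => ?_
  · rw [norm_div]
    exact div_le_one_of_le₀ (h1 r hr) (norm_nonneg _)
  · have a := norm_pos_iff.2 (h0 r hr)
    have b := norm_pos_iff.2 (h0 s hs)
    rw [div_sub_div _ _ (h0 r hr) (h0 s hs), norm_div, norm_mul, le_div_iff₀ (mul_pos a b),
      mul_comm (y r) (x s)]
    refine le_trans ?_ (h3 r s hn)
    nlinarith [h2 r hr, h2 s hs, mul_nonneg hδ.le (sq_nonneg (‖y r‖ - ‖y s‖))]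

/-- the packing bound, uniform in the point -/
theorem pack {w : ℂ × ℝ} (hw : 0 < w.2) {δ : ℝ} (hδ : 0 < δ) :
    {r : Row | δ ≤ hr r w}.Finite ∧ ({r : Row | δ ≤ hr r w}.ncard : ℝ) ≤ 64 * (1 + δ⁻¹ ^ 2) := by
  let x : Row → ℂ := fun r => toC r.1.1 * w.1 + toC r.1.2
  let y : Row → ℂ := fun r => toC r.1.1 * w.2
  have hD : ∀ r : Row, Dl (toC r.1.1) (toC r.1.2) w = ‖x r‖ ^ 2 + ‖y r‖ ^ 2 := fun r => by
    simp only [Dl, x, y, Complex.sq_norm, map_mul, normSq_ofReal, sq w.2]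
  have hP : ∀ r : Row, 0 < ‖x r‖ ^ 2 + ‖y r‖ ^ 2 := fun r =>
    hD r ▸ Dl_pos (Or.inr (toC_ne_zero r.2.2.ne_zero)) hw
  have hb : ∀ r : Row, δ ≤ hr r w → δ * (‖x r‖ ^ 2 + ‖y r‖ ^ 2) ≤ w.2 := fun r h => by
    rwa [hr, ht, hD, le_div_iff₀ (hP r)] at h
  have hd : ∀ r s : Row, r ≠ s → w.2 ≤ ‖y r * x s - y s * x r‖ := fun r s hn => by
    have e : y r * x s - y s * x r = w.2 * toC (r.1.1 * s.1.2 - s.1.1 * r.1.2) := by
      simp only [x, y, map_sub, map_mul]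
      ring
    rw [e, norm_mul, norm_real, Real.norm_of_nonneg hw.le]
    exact le_mul_of_one_le_right hw.le (row_det hn)
  obtain ⟨a1, a2⟩ := pack_half (v := w.2) {r | δ ≤ hr r w ∧ ‖y r‖ ≤ ‖x r‖} y x hδ
    (fun r h e => by
      have := hP r
      have h2 := h.2
      rw [e, norm_zero] at h2 this
      rw [le_antisymm h2 (norm_nonneg _)] at this
      simp at this)
    (fun r h => h.2) (fun r h => by nlinarith [hb r h.1, mul_nonneg hδ.le (sq_nonneg ‖y r‖)]) hd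
  obtain ⟨b1, b2⟩ := pack_half (v := w.2) {r | δ ≤ hr r w ∧ ‖x r‖ < ‖y r‖} x y hδ
    (fun r h => norm_pos_iff.1 ((norm_nonneg _).trans_lt h.2))
    (fun r h => h.2.le) (fun r h => by nlinarith [hb r h.1, mul_nonneg hδ.le (sq_nonneg ‖x r‖)])
    (fun r s hn => by
      have := hd s r hn.symm
      rwa [mul_comm (y s), mul_comm (y r)] at this)
  have e : {r : Row | δ ≤ hr r w} =
      {r | δ ≤ hr r w ∧ ‖y r‖ ≤ ‖x r‖} ∪ {r | δ ≤ hr r w ∧ ‖x r‖ < ‖y r‖} := by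
    ext r
    simp only [mem_ofPred_eq, mem_union, ← and_or_left, le_or_gt, and_true]
  rw [e]
  refine ⟨a1.union b1, ?_⟩
  have := ncard_union_le {r | δ ≤ hr r w ∧ ‖y r‖ ≤ ‖x r‖} {r | δ ≤ hr r w ∧ ‖x r‖ < ‖y r‖}
  have h' : _ ≤ (_ : ℝ) := Nat.cast_le.2 this
  push_cast at h'
  linarith

end pack

section FF

/-- the parallelogram of `9 O` -/
def FF : Set ℂ :=
  {z | (0 ≤ z.re + z.im / √3 ∧ z.re + z.im / √3 < 9) ∧ 0 ≤ 2 * z.im / √3 ∧ 2 * z.im / √3 < 9}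

theorem measurableSet_FF : MeasurableSet FF := by
  unfold FF
  measurability

theorem co_toC (t : O) : (toC t).re + (toC t).im / √3 = t.re ∧ 2 * (toC t).im / √3 = t.im := by
  have := sqrt3_pos.ne'
  rw [toC_re, toC_im]
  constructor <;> field_simp
  ring

theorem add_mem_FF (z : ℂ) (t : O) : z + toC (9 * t) ∈ FF ↔
    t.re = -⌊(z.re + z.im / √3) / 9⌋ ∧ t.im = -⌊2 * z.im / √3 / 9⌋ := by
  obtain ⟨a, b⟩ := co_toC (9 * t)
  have a' : ((9 * t).re : ℝ) = 9 * t.re := by simp [QuadraticAlgebra.re_ofNat, QuadraticAlgebra.im_ofNat]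
  have b' : ((9 * t).im : ℝ) = 9 * t.im := by simp [QuadraticAlgebra.re_ofNat, QuadraticAlgebra.im_ofNat]
  have key : ∀ (x : ℝ) (n : ℤ), (0 ≤ x + 9 * n ∧ x + 9 * n < 9) ↔ n = -⌊x / 9⌋ := fun x n => by
    rw [← neg_eq_iff_eq_neg, eq_comm, Int.floor_eq_iff]
    push_cast
    constructor <;> rintro ⟨h1, h2⟩ <;> constructor <;> linarith
  rw [← key, ← key, ← a', ← b', ← a, ← b]
  simp only [FF, mem_ofPred_eq, add_re, add_im, add_div, mul_add, add_add_add_comm]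

/-- the translation which moves `z` into the parallelogram -/
noncomputable def tr (z : ℂ) : O := ⟨-⌊(z.re + z.im / √3) / 9⌋, -⌊2 * z.im / √3 / 9⌋⟩

theorem add_mem_FF' (z : ℂ) (t : O) : z + toC (9 * t) ∈ FF ↔ t = tr z := by
  rw [add_mem_FF, QuadraticAlgebra.ext_iff]
  rfl

theorem existsUnique_FF (z : ℂ) : ∃! t : O, z + toC (9 * t) ∈ FF := by
  simp [add_mem_FF', -map_mul]

theorem ball_subset_FF : Metric.ball (⟨9 / 4, 9 * √3 / 4⟩ : ℂ) 1 ⊆ FF := fun z hz => by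
  rw [mem_ball_iff_norm] at hz
  obtain ⟨a1, a2⟩ := abs_lt.1 ((abs_re_le_norm _).trans_lt hz)
  obtain ⟨b1, b2⟩ := abs_lt.1 ((abs_im_le_norm _).trans_lt hz)
  simp only [sub_re, sub_im] at a1 a2 b1 b2
  have h1 : (1 : ℝ) ≤ √3 := Real.one_le_sqrt.2 (by norm_num)
  have c1 : 5 / 4 < z.im / √3 := by
    rw [lt_div_iff₀ sqrt3_pos]
    linarith
  have c2 : z.im / √3 < 13 / 4 := by
    rw [div_lt_iff₀ sqrt3_pos]
    linarith
  simp only [FF, mem_ofPred_eq, mul_div_assoc]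
  refine ⟨⟨?_, ?_⟩, ?_, ?_⟩ <;> linarith

theorem norm_le_of_FF {z : ℂ} (hz : z ∈ FF) : ‖z‖ ≤ 18 := by
  obtain ⟨⟨a1, a2⟩, b1, b2⟩ := hz
  rw [mul_div_assoc] at b1 b2
  have h2 : √3 ≤ (2 : ℝ) := Real.sqrt_le_iff.2 ⟨by norm_num, by norm_num⟩
  have e : z.im = z.im / √3 * √3 := by
    have := sqrt3_pos.ne'
    field_simp
  have c1 : |z.re| ≤ 9 := abs_le.2 ⟨by linarith, by linarith⟩
  have c2 : |z.im| ≤ 9 := by
    rw [e]
    exact abs_le.2 ⟨by nlinarith [sqrt3_pos], by nlinarith [sqrt3_pos]⟩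
  linarith [norm_le_abs_re_add_abs_im z]

theorem volume_FF_pos : 0 < volume FF :=
  (Metric.measure_ball_pos volume _ one_pos).trans_le (measure_mono ball_subset_FF)

theorem volume_FF_lt_top : volume FF < ⊤ :=
  (measure_mono fun _ hz => mem_closedBall_zero_iff.2 (norm_le_of_FF hz)).trans_lt
    measure_closedBall_lt_top

end FF

end Pool.Agent.P.MP_26a8c3_nt.QH
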