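import Mathlib

/-!
Hyperbolic three space, the action of `SL(2, ℂ)` and the invariant measure.
-/

namespace Pool.Agent.P.MP_26a8c3_nt.QH

open MeasureTheory Set Complex
open scoped MatrixGroups ComplexConjugate ENNReal

/-- the hermitian form attached to a point -/
noncomputable def Bf (x y x' y' : ℂ) (w : ℂ × ℝ) : ℂ :=
  (x * w.1 + y) * conj (x' * w.1 + y') + x * conj x' * (w.2 : ℂ) ^ 2

/-- the denominator -/
noncomputable def Dl (c d : ℂ) (w : ℂ × ℝ) : ℝ := normSq (c * w.1 + d) + normSq c * w.2 ^ 2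

/-- the height of the image of `w` under a matrix with bottom row `(c, d)` -/
noncomputable def ht (c d : ℂ) (w : ℂ × ℝ) : ℝ := w.2 / Dl c d w

/-- the action (trivial outside the upper half space) -/
noncomputable def act (g : SL(2, ℂ)) (w : ℂ × ℝ) : ℂ × ℝ :=
  if 0 < w.2 then
    (Bf (g 0 0) (g 0 1) (g 1 0) (g 1 1) w / Dl (g 1 0) (g 1 1) w, w.2 / Dl (g 1 0) (g 1 1) w)
  else w

/-- the measure `dv / v ^ 3` on the positive reals -/
noncomputable def nu : Measure ℝ :=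
  (volume.restrict (Ioi (0 : ℝ))).withDensity fun v => ENNReal.ofReal (v ^ 3)⁻¹

/-- the invariant measure `dz dv / v ^ 3` -/
noncomputable def dm : Measure (ℂ × ℝ) := (volume : Measure ℂ).prod nu

instance : SFinite nu := by
  unfold nu
  infer_instance

instance : SigmaFinite nu := by
  unfold nu
  infer_instance

instance : SigmaFinite dm := by
  unfold dm
  infer_instance

theorem Dl_cast (c d : ℂ) (w : ℂ × ℝ) : (Dl c d w : ℂ) = Bf c d c d w := by
  simp only [Dl, Bf, ofReal_add, ofReal_mul, ofReal_pow, ← mul_conj]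

theorem Dl_nonneg (c d : ℂ) (w : ℂ × ℝ) : 0 ≤ Dl c d w :=
  add_nonneg (normSq_nonneg _) (mul_nonneg (normSq_nonneg _) (sq_nonneg _))

theorem Dl_pos {c d : ℂ} (h : c ≠ 0 ∨ d ≠ 0) {w : ℂ × ℝ} (hw : 0 < w.2) : 0 < Dl c d w := by
  by_cases hc : c = 0
  · subst hc
    have := normSq_pos.2 (h.resolve_left (by simp))
    simpa [Dl] using this
  · exact add_pos_of_nonneg_of_pos (normSq_nonneg _) (mul_pos (normSq_pos.2 hc) (pow_pos hw 2))

theorem det2 {R : Type*} [CommRing R] (g : SL(2, R)) : g 0 0 * g 1 1 - g 0 1 * g 1 0 = 1 := by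
  have := g.det_coe
  rwa [Matrix.det_fin_two] at this

theorem row_ne (g : SL(2, ℂ)) : g 1 0 ≠ 0 ∨ g 1 1 ≠ 0 := by
  by_contra h
  push Not at h
  have := det2 g
  simp [h.1, h.2] at this

theorem Dl_pos' (g : SL(2, ℂ)) {w : ℂ × ℝ} (hw : 0 < w.2) : 0 < Dl (g 1 0) (g 1 1) w :=
  Dl_pos (row_ne g) hw

theorem act_pos (g : SL(2, ℂ)) {w : ℂ × ℝ} (hw : 0 < w.2) : act g w =
    (Bf (g 0 0) (g 0 1) (g 1 0) (g 1 1) w / Dl (g 1 0) (g 1 1) w, ht (g 1 0) (g 1 1) w) :=
  if_pos hw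

theorem act_neg (g : SL(2, ℂ)) {w : ℂ × ℝ} (hw : ¬ 0 < w.2) : act g w = w := if_neg hw

theorem act_snd (g : SL(2, ℂ)) {w : ℂ × ℝ} (hw : 0 < w.2) :
    (act g w).2 = ht (g 1 0) (g 1 1) w := by rw [act_pos g hw]

theorem ht_pos {c d : ℂ} (h : c ≠ 0 ∨ d ≠ 0) {w : ℂ × ℝ} (hw : 0 < w.2) : 0 < ht c d w :=
  div_pos hw (Dl_pos h hw)

theorem act_snd_pos (g : SL(2, ℂ)) {w : ℂ × ℝ} (hw : 0 < w.2) : 0 < (act g w).2 := by
  rw [act_snd g hw]
  exact ht_pos (row_ne g) hw

theorem act_snd_pos_iff (g : SL(2, ℂ)) (w : ℂ × ℝ) : 0 < (act g w).2 ↔ 0 < w.2 :=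
  ⟨fun h => by
    by_contra hw
    exact hw (act_neg g hw ▸ h), act_snd_pos g⟩

theorem Bf_act (g : SL(2, ℂ)) (x y x' y' : ℂ) {w : ℂ × ℝ} (hw : 0 < w.2) :
    Bf x y x' y' (act g w) = Bf (x * g 0 0 + y * g 1 0) (x * g 0 1 + y * g 1 1)
      (x' * g 0 0 + y' * g 1 0) (x' * g 0 1 + y' * g 1 1) w / Dl (g 1 0) (g 1 1) w := by
  have hD : (Dl (g 1 0) (g 1 1) w : ℂ) ≠ 0 := ofReal_ne_zero.2 (Dl_pos' g hw).ne'
  have e := Dl_cast (g 1 0) (g 1 1) w
  have h1 := det2 g
  have h2 := congrArg conj h1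
  rw [act_pos g hw]
  simp only [Bf, ht, map_add, map_mul, map_div₀, map_sub, map_one, map_pow, conj_ofReal, conj_conj,
    ofReal_div] at e h2 ⊢
  generalize (Dl (g 1 0) (g 1 1) w : ℂ) = D at hD e ⊢
  field_simp
  subst e
  linear_combination (-(x * conj x' * (w.2 : ℂ) ^ 2) * (conj (g 0 0) * conj (g 1 1) -
    conj (g 0 1) * conj (g 1 0))) * h1 - (x * conj x' * (w.2 : ℂ) ^ 2) * h2

/-- the cocycle relation -/
theorem Dl_act (g : SL(2, ℂ)) (c d : ℂ) {w : ℂ × ℝ} (hw : 0 < w.2) :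
    Dl c d (act g w) =
      Dl (c * g 0 0 + d * g 1 0) (c * g 0 1 + d * g 1 1) w / Dl (g 1 0) (g 1 1) w := by
  apply ofReal_injective
  rw [ofReal_div, Dl_cast, Dl_cast (c * g 0 0 + d * g 1 0), Bf_act g _ _ _ _ hw]

theorem ht_act (g : SL(2, ℂ)) (c d : ℂ) {w : ℂ × ℝ} (hw : 0 < w.2) :
    ht c d (act g w) = ht (c * g 0 0 + d * g 1 0) (c * g 0 1 + d * g 1 1) w := by
  have hD := (Dl_pos' g hw).ne'
  rw [ht, Dl_act g c d hw, act_snd g hw, ht, ht, div_div_div_cancel_right₀ hD]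

theorem mul_app {R : Type*} [CommRing R] (g h : SL(2, R)) (i j : Fin 2) :
    (g * h) i j = g i 0 * h 0 j + g i 1 * h 1 j := by
  simp [Matrix.mul_apply, Fin.sum_univ_two]

theorem act_mul (g h : SL(2, ℂ)) (w : ℂ × ℝ) : act (g * h) w = act g (act h w) := by
  by_cases hw : 0 < w.2
  · have hD : (Dl (h 1 0) (h 1 1) w : ℂ) ≠ 0 := ofReal_ne_zero.2 (Dl_pos' h hw).ne'
    rw [act_pos g (act_snd_pos h hw), act_pos _ hw, ht_act h _ _ hw, Bf_act h _ _ _ _ hw,
      Dl_act h _ _ hw, ofReal_div, div_div_div_cancel_right₀ hD]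
    simp only [mul_app]
  · simp only [act_neg _ hw]

/-- the action of an upper triangular matrix -/
theorem act_upper (g : SL(2, ℂ)) (hc : g 1 0 = 0) {w : ℂ × ℝ} (hw : 0 < w.2) :
    act g w = (g 0 0 * (g 0 0 * w.1 + g 0 1), normSq (g 0 0) * w.2) := by
  have h1 := det2 g
  rw [hc, mul_zero, sub_zero] at h1
  have hd : g 1 1 ≠ 0 := right_ne_zero_of_mul_eq_one h1
  have ha : g 0 0 = (g 1 1)⁻¹ := eq_inv_of_mul_eq_one_left h1
  have hd' : conj (g 1 1) ≠ 0 := by simpa using hd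
  rw [act_pos g hw, Dl_cast, hc]
  refine Prod.ext ?_ ?_
  · simp only [Bf, zero_mul, zero_add, map_zero, mul_zero, add_zero]
    rw [ha]
    field_simp
  · simp only [ht, Dl, zero_mul, zero_add, map_zero, add_zero]
    rw [ha, map_inv₀, div_eq_inv_mul]

theorem act_one (w : ℂ × ℝ) : act 1 w = w := by
  by_cases hw : 0 < w.2
  · rw [act_upper 1 (by simp) hw]
    simp
  · exact act_neg _ hw

theorem act_inv_act (g : SL(2, ℂ)) (w : ℂ × ℝ) : act g⁻¹ (act g w) = w := by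
  rw [← act_mul, inv_mul_cancel, act_one]

theorem act_act_inv (g : SL(2, ℂ)) (w : ℂ × ℝ) : act g (act g⁻¹ w) = w := by
  rw [← act_mul, mul_inv_cancel, act_one]

/-- the upper unipotent matrix -/
def Tm {R : Type*} [CommRing R] (b : R) : SL(2, R) := ⟨!![1, b; 0, 1], by simp [Matrix.det_fin_two]⟩

/-- the lower unipotent matrix -/
def Um {R : Type*} [CommRing R] (c : R) : SL(2, R) := ⟨!![1, 0; c, 1], by simp [Matrix.det_fin_two]⟩

/-- the inversion -/
def Sm {R : Type*} [CommRing R] : SL(2, R) := ⟨!![0, -1; 1, 0], by simp [Matrix.det_fin_two]⟩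

section entries

variable {R : Type*} [CommRing R] (b : R)

@[simp] theorem Tm00 : Tm b 0 0 = 1 := rfl
@[simp] theorem Tm01 : Tm b 0 1 = b := rfl
@[simp] theorem Tm10 : Tm b 1 0 = 0 := rfl
@[simp] theorem Tm11 : Tm b 1 1 = 1 := rfl
@[simp] theorem Um00 : Um b 0 0 = 1 := rfl
@[simp] theorem Um01 : Um b 0 1 = 0 := rfl
@[simp] theorem Um10 : Um b 1 0 = b := rfl
@[simp] theorem Um11 : Um b 1 1 = 1 := rfl
@[simp] theorem Sm00 : (Sm : SL(2, R)) 0 0 = 0 := rfl
@[simp] theorem Sm01 : (Sm : SL(2, R)) 0 1 = -1 := rfl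
@[simp] theorem Sm10 : (Sm : SL(2, R)) 1 0 = 1 := rfl
@[simp] theorem Sm11 : (Sm : SL(2, R)) 1 1 = 0 := rfl

theorem sl_ext {g h : SL(2, R)} (h00 : g 0 0 = h 0 0) (h01 : g 0 1 = h 0 1) (h10 : g 1 0 = h 1 0)
    (h11 : g 1 1 = h 1 1) : g = h := by
  ext i j
  fin_cases i <;> fin_cases j <;> assumption

theorem Tm_add (b' : R) : Tm (b + b') = Tm b * Tm b' :=
  sl_ext (by simp [mul_app]) (by simp [mul_app, add_comm]) (by simp [mul_app]) (by simp [mul_app])

theorem Tm_zero : Tm (0 : R) = 1 := sl_ext (by simp) (by simp) (by simp) (by simp)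

theorem Tm_neg : Tm (-b) = (Tm b)⁻¹ :=
  eq_inv_of_mul_eq_one_left (by rw [← Tm_add, neg_add_cancel, Tm_zero])

end entries

theorem act_Tm (b : ℂ) {w : ℂ × ℝ} (hw : 0 < w.2) : act (Tm b) w = (w.1 + b, w.2) := by
  rw [act_upper _ rfl hw]
  simp

theorem act_Sm {w : ℂ × ℝ} (hw : 0 < w.2) : act Sm w =
    (normSq w.1 + w.2 ^ 2)⁻¹ • (-conj w.1, w.2) := by
  rw [act_pos _ hw]
  simp [Bf, ht, Dl, div_eq_inv_mul]

theorem continuous_Dl (c d : ℂ) : Continuous (Dl c d) := by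
  unfold Dl
  fun_prop

theorem continuous_Bf (x y x' y' : ℂ) : Continuous (Bf x y x' y') := by
  unfold Bf
  fun_prop

theorem measurable_ht (c d : ℂ) : Measurable (ht c d) :=
  measurable_snd.div (continuous_Dl c d).measurable

theorem measurableSet_up : MeasurableSet {w : ℂ × ℝ | 0 < w.2} :=
  measurableSet_lt measurable_const measurable_snd

theorem measurable_act (g : SL(2, ℂ)) : Measurable (act g) :=
  Measurable.ite measurableSet_up
    (((continuous_Bf _ _ _ _).measurable.div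
      (measurable_ofReal.comp (continuous_Dl _ _).measurable)).prodMk (measurable_ht _ _))
    measurable_id

theorem continuousOn_act (g : SL(2, ℂ)) : ContinuousOn (act g) {w | 0 < w.2} := by
  refine ContinuousOn.congr (ContinuousOn.prodMk ?_ ?_) fun w hw => act_pos g hw
  · exact (continuous_Bf _ _ _ _).continuousOn.div
      (continuous_ofReal.comp (continuous_Dl _ _)).continuousOn
      fun w hw => ofReal_ne_zero.2 (Dl_pos' g hw).ne'
  · exact continuous_snd.continuousOn.div (continuous_Dl _ _).continuousOn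
      fun w hw => (Dl_pos' g hw).ne'

theorem measurable_rho : Measurable fun v : ℝ => ENNReal.ofReal (v ^ 3)⁻¹ := by fun_prop

theorem dm_eq : dm = (volume.restrict {w : ℂ × ℝ | 0 < w.2}).withDensity
    fun w => ENNReal.ofReal (w.2 ^ 3)⁻¹ := by
  have e : {w : ℂ × ℝ | 0 < w.2} = (univ : Set ℂ) ×ˢ Ioi (0 : ℝ) := by
    ext w
    simp
  rw [dm, nu, prod_withDensity_right measurable_rho, e, Measure.volume_eq_prod,
    ← Measure.prod_restrict, Measure.restrict_univ]

theorem ae_up : ∀ᵐ w ∂dm, 0 < w.2 := by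
  rw [dm_eq]
  exact (withDensity_absolutelyContinuous _ _).ae_le (ae_restrict_mem measurableSet_up)

theorem mp_of_deriv (g : SL(2, ℂ)) (f' : ℂ × ℝ → (ℂ × ℝ →L[ℝ] ℂ × ℝ))
    (hf : ∀ w : ℂ × ℝ, 0 < w.2 → HasFDerivWithinAt (act g) (f' w) {w | 0 < w.2} w)
    (hd : ∀ w : ℂ × ℝ, 0 < w.2 → |(f' w).det| * w.2 ^ 3 = (act g w).2 ^ 3) :
    MeasurePreserving (act g) dm dm := by
  refine ⟨measurable_act g, Measure.ext fun s hs => ?_⟩
  have hs' := measurable_act g hs
  have : (volume : Measure (ℂ × ℝ)).IsAddHaarMeasure := Measure.prod.instIsAddHaarMeasure _ _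
  have hi : Function.Injective (act g) := Function.LeftInverse.injective (act_inv_act g)
  have e : s ∩ {w | 0 < w.2} = act g '' (act g ⁻¹' s ∩ {w | 0 < w.2}) := by
    ext w
    constructor
    · rintro ⟨h1, h2⟩
      exact ⟨act g⁻¹ w, ⟨by rwa [mem_preimage, act_act_inv], act_snd_pos _ h2⟩, act_act_inv g w⟩
    · rintro ⟨w, ⟨h1, h2⟩, rfl⟩
      exact ⟨h1, act_snd_pos g h2⟩
  rw [Measure.map_apply (measurable_act g) hs, dm_eq, withDensity_apply _ hs,
    withDensity_apply _ hs', Measure.restrict_restrict hs, Measure.restrict_restrict hs', e,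
    lintegral_image_eq_lintegral_abs_det_fderiv_mul volume (hs'.inter measurableSet_up)
      (fun w hw => (hf w hw.2).mono inter_subset_right) hi.injOn]
  refine setLIntegral_congr_fun (hs'.inter measurableSet_up) fun w hw => ?_
  have h1 : 0 < w.2 := hw.2
  have h2 := act_snd_pos g h1
  have h3 : |(f' w).det| = (act g w).2 ^ 3 / w.2 ^ 3 := by
    rw [← hd w h1]
    field_simp
  rw [← ENNReal.ofReal_mul (abs_nonneg _), h3]
  congr 1
  field_simp

theorem mp_upper (g : SL(2, ℂ)) (hc : g 1 0 = 0) : MeasurePreserving (act g) dm dm := by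
  let L : ℂ × ℝ →L[ℝ] ℂ × ℝ := (ContinuousLinearMap.mul ℝ ℂ (g 0 0 * g 0 0)).prodMap
    (normSq (g 0 0) • ContinuousLinearMap.id ℝ ℝ)
  refine mp_of_deriv g (fun _ => L) (fun w hw => ?_) fun w hw => ?_
  · refine ((L.hasFDerivAt.add_const (g 0 0 * g 0 1, 0)).hasFDerivWithinAt).congr'
      (fun w hw => ?_) hw
    rw [act_upper g hc hw]
    refine Prod.ext ?_ ?_
    · simp [L]
      ring
    · simp [L]
  · have e : (L : ℂ × ℝ →ₗ[ℝ] ℂ × ℝ) = (LinearMap.mul ℝ ℂ (g 0 0 * g 0 0)).prodMap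
        (normSq (g 0 0) • LinearMap.id) := rfl
    have e2 : LinearMap.det (LinearMap.mul ℝ ℂ (g 0 0 * g 0 0)) = normSq (g 0 0 * g 0 0) := by
      rw [← Algebra.norm_complex_apply, Algebra.norm_apply]
      rfl
    rw [ContinuousLinearMap.det, e, LinearMap.det_prodMap, e2, LinearMap.det_smul, act_upper g hc hw,
      abs_of_nonneg]
    · simp
      ring
    · have := normSq_nonneg (g 0 0)
      simp
      positivity

theorem abs_det_invol {E : Type*} [AddCommGroup E] [Module ℝ E] {L : E →ₗ[ℝ] E}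
    (h : L ∘ₗ L = LinearMap.id) : |LinearMap.det L| = 1 := by
  have := congrArg LinearMap.det h
  rw [LinearMap.det_comp, LinearMap.det_id] at this
  rcases mul_self_eq_one_iff.1 this with e | e <;> simp [e]

theorem mp_Sm : MeasurePreserving (act Sm) dm dm := by
  let σ : ℂ × ℝ →L[ℝ] ℂ × ℝ := (-(conjCLE : ℂ →L[ℝ] ℂ)).prodMap (ContinuousLinearMap.id ℝ ℝ)
  let φ : ℂ × ℝ → (ℂ × ℝ →L[ℝ] ℝ) := fun w =>
    (2 * w.1.re) • (reCLM.comp (ContinuousLinearMap.fst ℝ ℂ ℝ)) +
      (2 * w.1.im) • (imCLM.comp (ContinuousLinearMap.fst ℝ ℂ ℝ)) +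
      (2 * w.2) • ContinuousLinearMap.snd ℝ ℂ ℝ
  let q : ℂ × ℝ → ℝ := fun w => normSq w.1 + w.2 ^ 2
  have hq : ∀ w : ℂ × ℝ, 0 < w.2 → 0 < q w := fun w hw =>
    add_pos_of_nonneg_of_pos (normSq_nonneg _) (pow_pos hw 2)
  let R : ℂ × ℝ → (ℂ × ℝ →L[ℝ] ℂ × ℝ) := fun w =>
    ContinuousLinearMap.id ℝ _ - (q w)⁻¹ • (φ w).smulRight w
  have hφ : ∀ w, φ w w = 2 * q w := fun w => by
    simp [φ, q, normSq_apply]
    ring
  refine mp_of_deriv Sm (fun w => (q w)⁻¹ • σ.comp (R w)) (fun w hw => ?_) fun w hw => ?_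
  · have h1 : HasFDerivAt q (φ w) w := by
      have a1 := (reCLM.comp (ContinuousLinearMap.fst ℝ ℂ ℝ)).hasFDerivAt (x := w)
      have a2 := (imCLM.comp (ContinuousLinearMap.fst ℝ ℂ ℝ)).hasFDerivAt (x := w)
      have a3 := (ContinuousLinearMap.snd ℝ ℂ ℝ).hasFDerivAt (x := w)
      refine ((((a1.mul a1).add (a2.mul a2)).add (a3.mul a3)).congr_fderiv ?_).congr_of_eventuallyEq
        (Filter.Eventually.of_forall fun u => ?_)
      · refine ContinuousLinearMap.ext fun u => ?_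
        simp [φ]
        ring
      · simp [q, normSq_apply, sq]
    have h2 := ((hasFDerivAt_inv (hq w hw).ne').comp w h1).smul σ.hasFDerivAt
    refine ((h2.congr_fderiv ?_).hasFDerivWithinAt).congr' (fun w hw => ?_) hw
    · refine ContinuousLinearMap.ext fun u => ?_
      have := (hq w hw).ne'
      simp only [R, add_apply, smul_apply,
        ContinuousLinearMap.smulRight_apply, ContinuousLinearMap.comp_apply, Function.comp,
        sub_apply, ContinuousLinearMap.id_apply, map_sub, map_smul,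
        ContinuousLinearMap.toSpanSingleton_apply, smul_eq_mul, smul_smul]
      match_scalars <;> field_simp
    · rw [act_Sm hw]
      rfl
  · have e1 : |LinearMap.det (σ : ℂ × ℝ →ₗ[ℝ] ℂ × ℝ)| = 1 := abs_det_invol (by
      ext <;> simp [σ])
    have e2 : |LinearMap.det (R w : ℂ × ℝ →ₗ[ℝ] ℂ × ℝ)| = 1 := abs_det_invol (by
      refine LinearMap.ext fun u => ?_
      have := (hq w hw).ne'
      simp only [R, LinearMap.comp_apply, ContinuousLinearMap.coe_coe, LinearMap.id_apply,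
        sub_apply, ContinuousLinearMap.id_apply,
        smul_apply, ContinuousLinearMap.smulRight_apply, map_sub, map_smul,
        hφ, smul_smul]
      match_scalars <;> field_simp <;> ring)
    have e3 : Module.finrank ℝ (ℂ × ℝ) = 3 := by simp
    have := hq w hw
    rw [ContinuousLinearMap.det, ContinuousLinearMap.toLinearMap_smul, LinearMap.det_smul,
      ContinuousLinearMap.toLinearMap_comp, LinearMap.det_comp, abs_mul, abs_mul, e1, e2, e3, act_Sm hw,
      abs_of_pos (by positivity)]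
    simp [q, mul_pow]

/-- the measure is invariant -/
theorem mp_act (g : SL(2, ℂ)) : MeasurePreserving (act g) dm dm := by
  by_cases hc : g 1 0 = 0
  · exact mp_upper g hc
  · let u : SL(2, ℂ) := g * Tm (-(g 1 1 / g 1 0)) * Sm
    have hu : u 1 0 = 0 := by
      simp only [u, mul_app, Sm00, Sm10, Tm00, Tm01, Tm10, Tm11]
      field_simp
      ring
    have hS : MeasurePreserving (act Sm⁻¹) dm dm :=
      mp_Sm.symm ⟨⟨act Sm, act Sm⁻¹, act_inv_act _, act_act_inv _⟩, measurable_act _,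
        measurable_act _⟩
    have e : act g = act u ∘ act Sm⁻¹ ∘ act (Tm (g 1 1 / g 1 0)) := by
      funext w
      simp only [Function.comp, ← act_mul, u, Tm_neg, mul_assoc, mul_inv_cancel_left,
        inv_mul_cancel, mul_one]
    rw [e]
    exact (mp_upper u hu).comp (hS.comp (mp_upper _ rfl))

end Pool.Agent.P.MP_26a8c3_nt.QH
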